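import Pool.Agent.H80.LD.Targets

/-!
# Row ECF of the board `ldp_modules` (MP_47c37b_mp)
-/

set_option autoImplicit false

open MeasureTheory SchwartzMap Filter Topology
open scoped ENNReal ContDiff InnerProductSpace

namespace Pool.Agent.H35.LDP

open Pool.Agent.H80.LD
open Pool.Agent.H43.DPC (V S SD)

/-- evaluation at all test functions -/
noncomputable def Phi (d : ℕ) (T : SD d) : S d → ℝ := fun f => T f

theorem measurable_Phi (d : ℕ) : Measurable (Phi d) :=
  measurable_pi_iff.2 fun f => (WeakDual.eval_continuous f).measurable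

open Classical in
theorem char_law (d : ℕ) (ν : Measure (SD d)) (I : Finset (S d))
    (L : StrongDual ℝ ((i : I) → ℝ)) :
    charFunDual ((ν.map (Phi d)).map I.restrict) L =
      ∫ T : SD d, Complex.exp (Complex.I * ((T (∑ i : I, L (fun j => if i = j then 1 else 0) •
        (i : S d)) : ℝ) : ℂ)) ∂ν := by
  have hr : Measurable (I.restrict (π := fun _ : S d => ℝ)) := Finset.measurable_restrict I
  rw [Measure.map_map hr (measurable_Phi d), charFunDual_apply]
  rw [integral_map (hr.comp (measurable_Phi d)).aemeasurable]
  · refine integral_congr_ae (Eventually.of_forall fun T => ?_)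
    have h1 : L ((I.restrict (π := fun _ : S d => ℝ) ∘ Phi d) T) =
        T (∑ i : I, L (fun j => if i = j then 1 else 0) • (i : S d)) := by
      rw [map_sum]
      have h2 := LinearMap.pi_apply_eq_sum_univ (L : ((i : I) → ℝ) →ₗ[ℝ] ℝ)
        ((I.restrict (π := fun _ : S d => ℝ) ∘ Phi d) T)
      refine h2.trans (Finset.sum_congr rfl fun i _ => ?_)
      rw [map_smul, smul_eq_mul, smul_eq_mul, mul_comm]
      rfl
    show Complex.exp (((L ((I.restrict (π := fun _ : S d => ℝ) ∘ Phi d) T) : ℝ) : ℂ) *
      Complex.I) = _
    rw [h1, mul_comm]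
  · have hc : Continuous (fun v : (i : I) → ℝ => Complex.exp (((L v : ℝ) : ℂ) * Complex.I)) := by
      fun_prop
    exact hc.aestronglyMeasurable

theorem pf_ECF (hCYL : T_CYL) : T_ECF := by
  intro d μ μ' hμ hμ' h
  have hm := measurable_Phi d
  have hmap : μ.map (Phi d) = μ'.map (Phi d) := by
    refine IsProjectiveLimit.unique (P := fun I => (μ.map (Phi d)).map I.restrict)
      (fun I => rfl) (fun I => ?_)
    have : IsProbabilityMeasure (μ.map (Phi d)) :=
      Measure.isProbabilityMeasure_map hm.aemeasurable
    have : IsProbabilityMeasure (μ'.map (Phi d)) :=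
      Measure.isProbabilityMeasure_map hm.aemeasurable
    have hr : Measurable (I.restrict (π := fun _ : S d => ℝ)) := Finset.measurable_restrict I
    have : IsProbabilityMeasure ((μ.map (Phi d)).map (I.restrict (π := fun _ : S d => ℝ))) :=
      Measure.isProbabilityMeasure_map hr.aemeasurable
    have : IsProbabilityMeasure ((μ'.map (Phi d)).map (I.restrict (π := fun _ : S d => ℝ))) :=
      Measure.isProbabilityMeasure_map hr.aemeasurable
    apply Measure.ext_of_charFunDual
    funext L
    rw [char_law, char_law]
    exact (h _).symm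
  refine Measure.ext fun A hA => ?_
  have hA' : ∃ B : Set (S d → ℝ), MeasurableSet B ∧ Phi d ⁻¹' B = A := by
    have h1 : MeasurableSet[borel (SD d)] A := hA
    rw [hCYL d] at h1
    have h2 : (⨆ f : S d, MeasurableSpace.comap (fun T : SD d => T f) (borel ℝ)) =
        MeasurableSpace.comap (Phi d) MeasurableSpace.pi := by
      have h3 : (MeasurableSpace.pi : MeasurableSpace (S d → ℝ)) =
          ⨆ f : S d, MeasurableSpace.comap (fun b : S d → ℝ => b f) (borel ℝ) := by
        show (⨆ f : S d, MeasurableSpace.comap (fun b : S d → ℝ => b f) inferInstance) = _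
        rw [BorelSpace.measurable_eq (α := ℝ)]
      rw [h3, MeasurableSpace.comap_iSup]
      refine iSup_congr fun f => ?_
      rw [MeasurableSpace.comap_comp]
      rfl
    rw [h2] at h1
    exact h1
  obtain ⟨B, hB, rfl⟩ := hA'
  rw [← Measure.map_apply hm hB, hmap, Measure.map_apply hm hB]

end Pool.Agent.H35.LDP
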